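import Pool.Agent.Helper3.CG.Gap

/-!
# The bases of a solution of `(a³ - 1)(b³ - 1) = x²` are not close

Every solution of `(a³ - 1)(b³ - 1) = x²` in positive integers with `a < b` has
`a + b < (b - a)³`.
-/

set_option autoImplicit false

namespace Pool.Agent.Results.MP_040934_nt.CubicGap

theorem result :
    ∀ a b x : ℤ, 0 < a → a < b → 0 < x → (a ^ 3 - 1) * (b ^ 3 - 1) = x ^ 2 →
      a + b < (b - a) ^ 3 := by
  intro a b x ha hab hx h
  have ha2 : 2 ≤ a := by
    by_contra hcon
    have h1 : a = 1 := by omega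
    rw [h1] at h
    have : 0 < x ^ 2 := pow_pos hx 2
    rw [← h] at this
    norm_num at this
  exact Pool.Agent.Helper3.CG.gap a b x ha2 hab h

end Pool.Agent.Results.MP_040934_nt.CubicGap
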