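import Pool.Agent.Helper46.CU.FIN
import Pool.Agent.Helper30.CU.PELL
import Pool.Agent.Helper8.CU.CLS
import Pool.Agent.Helper32.CU.SPL
import Pool.Agent.Helper53.CU.LRG
import Pool.Agent.Helper68.CU.PRT
import Pool.Agent.Helper58.CU.GAP
import Pool.Agent.Helper80.CU.RED
import Pool.Agent.Helper7.CU.SML
import Pool.Agent.Helper38.CU.BLK
import Pool.Agent.Helper92.CU.ALL

/-!
# Counting the solutions of `(a³ - 1)(b³ - 1) = x²`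

For every `ε > 0` there is `C` such that for all `1 ≤ A ≤ B` the number of pairs `a < b`,
`1 ≤ a ≤ A`, `b ≤ B`, which belong to a solution of `(a³ - 1)(b³ - 1) = x²` in positive integers,
is at most `C (A^(2/3) + A^(1/6) B^(1/2)) B^ε`.
-/

set_option autoImplicit false

namespace Pool.Agent.Results.MP_040934_nt.FewPairs

open Pool.Agent.Helper46.CU

theorem result :
    ∀ ε : ℝ, 0 < ε → ∃ C : ℝ, ∀ A B : ℕ, 1 ≤ A → A ≤ B →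
      (({p : ℕ × ℕ | 1 ≤ p.1 ∧ p.1 ≤ A ∧ p.1 < p.2 ∧ p.2 ≤ B ∧
        ∃ x : ℕ, 1 ≤ x ∧ ((p.1 : ℤ) ^ 3 - 1) * ((p.2 : ℤ) ^ 3 - 1) = (x : ℤ) ^ 2}.ncard : ℕ) : ℝ) ≤
      C * ((A : ℝ) ^ (2 / 3 : ℝ) + (A : ℝ) ^ (1 / 6 : ℝ) * (B : ℝ) ^ (1 / 2 : ℝ)) *
        (B : ℝ) ^ ε :=
  fin_result (st_ALL (st_BLK (st_LRG st_PELL st_CLS st_SPL) (st_PRT st_PELL) st_RED
    (st_SML st_GAP)))

end Pool.Agent.Results.MP_040934_nt.FewPairs
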