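import Pool.Agent.Helper46.DG.Main

/-!
# Solutions of `(a³ - 1)(b³ - 1) = x²` on plane curves

For every `k` and `ε > 0` there is `C` such that every curve `F(x, y) = 0`, `F` of degree at most
`k` in each variable with integer coefficients of absolute value at most `H`, which does not pass
through the six points `(z, w)`, `z² + z + 1 = 0`, `w³ = 1`, contains at most `C (H X)^ε` of the
pairs `a < b ≤ X` which belong to a solution in positive integers.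
-/

set_option autoImplicit false

namespace Pool.Agent.Results.MP_040934_nt.SolutionsOnCurves

open Pool.Agent.Helper46.DG

theorem result :
    ∀ (k : ℕ) (ε : ℝ), 0 < ε → ∃ C : ℝ, ∀ (H X : ℕ) (c : ℕ → ℕ → ℤ), 1 ≤ H → 1 ≤ X →
      (∀ i ≤ k, ∀ l ≤ k, |c i l| ≤ (H : ℤ)) →
      (∀ z w : ℂ, z ^ 2 + z + 1 = 0 → w ^ 3 = 1 →
        ∑ i ∈ Finset.range (k + 1), ∑ l ∈ Finset.range (k + 1), (c i l : ℂ) * z ^ i * w ^ l ≠ 0) →
      ({p : ℕ × ℕ | 1 ≤ p.1 ∧ p.1 < p.2 ∧ p.2 ≤ X ∧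
        (∃ x : ℕ, 1 ≤ x ∧ ((p.1 : ℤ) ^ 3 - 1) * ((p.2 : ℤ) ^ 3 - 1) = (x : ℤ) ^ 2) ∧
        ∑ i ∈ Finset.range (k + 1), ∑ l ∈ Finset.range (k + 1),
          c i l * (p.1 : ℤ) ^ i * (p.2 : ℤ) ^ l = 0}.ncard : ℝ) ≤ C * ((H : ℝ) * X) ^ ε := by
  intro k ε hε
  obtain ⟨C, -, h⟩ := curve_count Pool.Agent.Helper46.CU.st_PELL k ε hε
  exact ⟨C, h⟩

end Pool.Agent.Results.MP_040934_nt.SolutionsOnCurves
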