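import Pool.Agent.Helper46.DG.Lines

/-!
# Solutions of `(a³ - 1)(b³ - 1) = x²` on lines of square slope

For every `ε > 0` there is `C` such that for all `r, s ≥ 1` and all integers `e`, with `r ≠ s` or
`e ≠ 0`, at most `C (r + s + |e|)^ε` pairs `a < b` which belong to a solution in positive integers
satisfy `s² b = r² a + e` (no bound for `a` and `b` is assumed).
-/

set_option autoImplicit false

namespace Pool.Agent.Results.MP_040934_nt.SquareSlopes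

open Pool.Agent.Helper46.DG

theorem result :
    ∀ ε : ℝ, 0 < ε → ∃ C : ℝ, ∀ (r s : ℕ) (e : ℤ), 1 ≤ r → 1 ≤ s → ¬ (e = 0 ∧ r = s) →
      {p : ℕ × ℕ | 1 ≤ p.1 ∧ p.1 < p.2 ∧ (s : ℤ) ^ 2 * p.2 = (r : ℤ) ^ 2 * p.1 + e ∧
        ∃ x : ℕ, 1 ≤ x ∧ ((p.1 : ℤ) ^ 3 - 1) * ((p.2 : ℤ) ^ 3 - 1) = (x : ℤ) ^ 2}.Finite ∧
      ({p : ℕ × ℕ | 1 ≤ p.1 ∧ p.1 < p.2 ∧ (s : ℤ) ^ 2 * p.2 = (r : ℤ) ^ 2 * p.1 + e ∧
        ∃ x : ℕ, 1 ≤ x ∧ ((p.1 : ℤ) ^ 3 - 1) * ((p.2 : ℤ) ^ 3 - 1) = (x : ℤ) ^ 2}.ncard : ℝ) ≤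
      C * ((r : ℝ) + s + |(e : ℝ)|) ^ ε :=
  fun ε hε => line_count Pool.Agent.Helper46.CU.st_PELL ε hε

end Pool.Agent.Results.MP_040934_nt.SquareSlopes
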